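import Pool.Agent.QSB.StmtsA
import Pool.Agent.Helper11_QSX.INA

/-!
# QSB row INM (helper98, port of Helper40_QSN/INM): a homomorphism which separates the root elements of `rt l`
-/

set_option autoImplicit false

namespace Pool.Agent.QSB.H98

open Matrix Finset Pool.Agent.QSX Pool.Agent.QSN Pool.Agent.QSX.H11 Pool.Agent.QSB

section

variable {X Y : Dat} {hX : MB X} {F : Type} [Field F] [Algebra ℝ F]
  {P : X.b →ₗ[ℝ] (Fin Y.m → ℝ)} (A : Pool.Agent.QSB.AFM X Y hX F P)

theorem step_uu (t : hX.ι) (n : (Matrix (Fin X.m) (Fin X.m) ℝ)ˣ) (hn : n ∈ hX.Gam) (x : ℚ) :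
    UU ((A.rg.V t n x : (Matrix (Fin Y.m) (Fin Y.m) F)ˣ) : Matrix (Fin Y.m) (Fin Y.m) F) := by
  have hn' : n * ue ((x : ℝ) • hX.e t) ∈ hX.Gam :=
    hX.Gam.mul_mem hn (Subgroup.subset_closure ⟨t, x, rfl⟩)
  obtain ⟨y, -, hy⟩ := A.val n hn _ hn'
  change UU (((A.χ n)⁻¹ * A.χ (n * ue ((x : ℝ) • hX.e t)) : (Matrix (Fin Y.m) (Fin Y.m) F)ˣ) :
    Matrix (Fin Y.m) (Fin Y.m) F)
  rw [hy]
  exact uu_ue y

theorem step_supp (t : hX.ι) (n : (Matrix (Fin X.m) (Fin X.m) ℝ)ˣ) (hn : n ∈ hX.Gam) (x : ℚ)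
    (i k : Fin Y.m) (hik : i < k)
    (h : ((A.rg.V t n x : (Matrix (Fin Y.m) (Fin Y.m) F)ˣ) : Matrix (Fin Y.m) (Fin Y.m) F) i k ≠ 0) :
    ∃ κ : ℝ, 0 < κ ∧ ∀ a, P a i - P a k = κ * hX.rt t a := by
  have hn' : n * ue ((x : ℝ) • hX.e t) ∈ hX.Gam :=
    hX.Gam.mul_mem hn (Subgroup.subset_closure ⟨t, x, rfl⟩)
  have hz : (x : ℝ) • hX.e t ∈ Submodule.span ℝ (hX.e '' {t}) :=
    Submodule.smul_mem _ _ (Submodule.subset_span ⟨t, rfl, rfl⟩)
  obtain ⟨h1, b, hb⟩ := A.supp n hn _ hn' {t} _ hz rfl i k hik h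
  obtain ⟨a₀, ha₀⟩ := hX.pos
  obtain ⟨κ, hκ, hw⟩ := fks (hX.rt t)
    ((LinearMap.proj i).comp P - (LinearMap.proj k).comp P : X.b →ₗ[ℝ] ℝ) ⟨a₀, ha₀ t⟩
    (fun a ha => h1 a (fun ν hν => by rw [Set.mem_singleton_iff.1 hν]; exact ha))
  have hw' : ∀ a, P a i - P a k = κ * hX.rt t a := hw
  refine ⟨κ, lt_of_le_of_ne hκ fun h0 => hb ?_, hw'⟩
  rw [hw' b, ← h0, zero_mul]

theorem inm (hF : FcpStmt) : Pool.Agent.QSB.InmStmt := by
  classical
  intro X Y hX F _ _ P A l l' hll
  have hF' := hF F Y.m (fun i k => ∀ a : X.b, 0 ≤ hX.rt l a → 0 ≤ hX.rt l' a → 0 ≤ P a i - P a k)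
    (fun i k => ∀ a : X.b, hX.rt l a = 0 → P a i - P a k = 0)
    (fun i j k _ _ h1 h2 a ha ha' => by
      have := h1 a ha ha'
      have := h2 a ha ha'
      linarith)
    (fun i j k _ _ h1 h2 => by
      constructor
      · intro h
        have key : ∀ a : X.b, hX.rt l a = 0 → P a i - P a j = 0 ∧ P a j - P a k = 0 := by
          intro a ha
          rcases le_total 0 (hX.rt l' a) with hp | hp
          · have e1 := h1 a ha.ge hp
            have e2 := h2 a ha.ge hp
            have e3 := h a ha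
            constructor <;> linarith
          · have hna : hX.rt l (-a) = 0 := by rw [map_neg, ha, neg_zero]
            have hna' : 0 ≤ hX.rt l' (-a) := by rw [map_neg]; linarith
            have e1 := h1 (-a) hna.ge hna'
            have e2 := h2 (-a) hna.ge hna'
            have e3 := h a ha
            rw [map_neg, Pi.neg_apply, Pi.neg_apply] at e1 e2
            constructor <;> linarith
        exact ⟨fun a ha => (key a ha).1, fun a ha => (key a ha).2⟩
      · rintro ⟨e1, e2⟩ a ha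
        have := e1 a ha
        have := e2 a ha
        linarith)
  obtain ⟨G, π, hG, hπ, -, -⟩ := hF'
  obtain ⟨a₀, ha₀⟩ := hX.pos
  refine ⟨G, π, ?_, ?_⟩
  · intro t ht n hn x
    have huu := step_uu A t n hn x
    have hmem : A.rg.V t n x ∈ G := by
      rw [hG]
      refine ⟨huu, fun i k hik h a ha ha' => ?_⟩
      obtain ⟨κ, hκ, hw⟩ := step_supp A t n hn x i k hik h
      rw [hw, ht]
      exact mul_nonneg hκ.le ha
    refine ⟨hmem, ?_⟩
    apply Units.ext
    rw [hπ ⟨_, hmem⟩]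
    change kp _ ((A.rg.V t n x : (Matrix (Fin Y.m) (Fin Y.m) F)ˣ) : Matrix (Fin Y.m) (Fin Y.m) F) = _
    ext i k
    rw [kp_apply]
    by_cases hc : i = k ∨ ∀ a : X.b, hX.rt l a = 0 → P a i - P a k = 0
    · rw [if_pos hc]
    · rw [if_neg hc]
      push Not at hc
      obtain ⟨hik, a, ha, haw⟩ := hc
      by_contra hne
      rcases lt_or_gt_of_ne hik with hlt | hgt
      · obtain ⟨κ, hκ, hw⟩ := step_supp A t n hn x i k hlt (Ne.symm hne)
        exact haw (by rw [hw, ht, ha, mul_zero])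
      · have := uu_diag huu i k hgt.le
        rw [Matrix.one_apply_ne hik] at this
        exact hne this.symm
  · rintro t ⟨p, p', hp, hp', hr⟩ n hn x
    have hr' : ∀ a, hX.rt t a = p * hX.rt l a + p' * hX.rt l' a := by
      intro a; rw [hr]; rfl
    have huu := step_uu A t n hn x
    have hmem : A.rg.V t n x ∈ G := by
      rw [hG]
      refine ⟨huu, fun i k hik h a ha ha' => ?_⟩
      obtain ⟨κ, hκ, hw⟩ := step_supp A t n hn x i k hik h
      rw [hw, hr']
      positivity
    refine ⟨hmem, ?_⟩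
    apply Units.ext
    rw [hπ ⟨_, hmem⟩, Units.val_one]
    change kp _ ((A.rg.V t n x : (Matrix (Fin Y.m) (Fin Y.m) F)ˣ) : Matrix (Fin Y.m) (Fin Y.m) F) = _
    ext i k
    rw [kp_apply]
    by_cases hik : i = k
    · subst hik
      rw [if_pos (Or.inl rfl)]
      exact uu_diag huu i i le_rfl
    · rw [Matrix.one_apply_ne hik]
      by_cases hc : i = k ∨ ∀ a : X.b, hX.rt l a = 0 → P a i - P a k = 0
      · rw [if_pos hc]
        have hc' := hc.resolve_left hik
        by_contra hne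
        rcases lt_or_gt_of_ne hik with hlt | hgt
        · obtain ⟨κ, hκ, hw⟩ := step_supp A t n hn x i k hlt hne
          apply hX.np_symm hll (hX.rt l' a₀ / hX.rt l a₀)
          apply LinearMap.ext
          intro a
          change _ = hX.rt l' a₀ / hX.rt l a₀ * hX.rt l a
          have e0 := (ha₀ l).ne'
          have e1 : hX.rt l (a - (hX.rt l a / hX.rt l a₀) • a₀) = 0 := by
            rw [map_sub, map_smul, smul_eq_mul, div_mul_cancel₀ _ e0, sub_self]
          have e2 := hc' _ e1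
          rw [hw, hr', e1, mul_zero, zero_add] at e2
          have e3 : hX.rt l' (a - (hX.rt l a / hX.rt l a₀) • a₀) = 0 := by
            rcases mul_eq_zero.1 e2 with e4 | e4
            · exact absurd e4 hκ.ne'
            · rcases mul_eq_zero.1 e4 with e5 | e5
              · exact absurd e5 hp'.ne'
              · exact e5
          rw [map_sub, map_smul, smul_eq_mul, sub_eq_zero] at e3
          rw [e3]
          field_simp
        · have := uu_diag huu i k hgt.le
          rw [Matrix.one_apply_ne hik] at this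
          exact hne this
      · rw [if_neg hc]

end

end Pool.Agent.QSB.H98
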