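import Pool.Agent.QSB.StmtsS

set_option autoImplicit false

/-!
Squad QSB, row SMR: every root is a sum of simple roots.
-/

namespace Pool.Agent.QSB.H98

open Matrix Finset Pool.Agent.QSX

theorem smr (hG : GwbStmt) (hW : WtrStmt) : SmrStmt := by
  classical
  rintro X ⟨S⟩ ⟨R⟩
  have hpos : ∀ ρ, IsRt X ρ → 0 < ρ S.a₀ := by
    rintro ρ ⟨x, hx⟩
    exact ((hG X S).1 ρ x hx).2
  have key : ∀ n : ℕ, ∀ ρ, IsRt X ρ →
      (Finset.univ.filter (fun l : R.ι => R.rt l S.a₀ < ρ S.a₀)).card = n →
      ∃ L : List (X.b →ₗ[ℝ] ℝ), (∀ α ∈ L, Smp X α) ∧ L.sum = ρ := by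
    intro n
    induction n using Nat.strong_induction_on with
    | _ n ih =>
      intro ρ hρ hn
      by_cases hs : Smp X ρ
      · refine ⟨[ρ], ?_, by simp⟩
        intro α hα
        rw [List.mem_singleton] at hα
        rw [hα]
        exact hs
      · have hex : ∃ σ τ, IsRt X σ ∧ IsRt X τ ∧ σ + τ = ρ := by
          by_contra hcon
          push Not at hcon
          exact hs ⟨hρ, fun σ τ h1 h2 => hcon σ τ h1 h2⟩
        obtain ⟨σ, τ, h1, h2, h3⟩ := hex
        have e : σ S.a₀ + τ S.a₀ = ρ S.a₀ := by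
          rw [← h3]
          rfl
        have p1 := hpos σ h1
        have p2 := hpos τ h2
        have lt : ∀ κ, IsRt X κ → κ S.a₀ < ρ S.a₀ →
            (Finset.univ.filter (fun l : R.ι => R.rt l S.a₀ < κ S.a₀)).card < n := by
          intro κ hκ hlt
          rw [← hn]
          apply Finset.card_lt_card
          obtain ⟨l, hl⟩ := ((hW X R κ).2).1 hκ
          rw [Finset.ssubset_iff_of_subset]
          · refine ⟨l, ?_, ?_⟩
            · rw [Finset.mem_filter, hl]
              exact ⟨Finset.mem_univ _, hlt⟩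
            · rw [Finset.mem_filter, hl]
              exact fun h => lt_irrefl _ h.2
          · intro l' hl'
            rw [Finset.mem_filter] at hl' ⊢
            exact ⟨hl'.1, hl'.2.trans hlt⟩
        obtain ⟨L1, a1, b1⟩ := ih _ (lt σ h1 (by linarith)) σ h1 rfl
        obtain ⟨L2, a2, b2⟩ := ih _ (lt τ h2 (by linarith)) τ h2 rfl
        refine ⟨L1 ++ L2, ?_, ?_⟩
        · intro α hα
          rcases List.mem_append.1 hα with h | h
          · exact a1 α h
          · exact a2 α h
        · rw [List.sum_append, b1, b2, h3]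
  intro ρ hρ
  exact key _ ρ hρ rfl

end Pool.Agent.QSB.H98
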